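import Pool.Agent.Helper594_MMS.Small

/-!
# MP_9999b5_co: the maximum number of non-negative `k`-subsets of a zero-sum set

For a finite set `A` of reals let `mu k A` be the number of `k`-element subsets of `A` whose sum is
at least `0`.  We prove that the maximum of `mu k A` over all sets `A` of `n` (distinct) reals with
sum `0` equals `C(n-1, k)`, for all `n ≥ 4k` when `k ≤ 4`, for all `n ≥ 4k` divisible by `k`, and for
all `n ≥ 8k²`.
-/

namespace Pool.Agent.Results.MP_9999b5_co.StrictMMS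

open Finset

/-- The number of `k`-element subsets of `A` with non-negative sum. -/
noncomputable def mu (k : ℕ) (A : Finset ℝ) : ℕ :=
  ((A.powersetCard k).filter (fun B => 0 ≤ ∑ b ∈ B, b)).card

theorem mu_add_neg (k : ℕ) (A : Finset ℝ) :
    mu k A + (Pool.Agent.Helper594_MMS.neg k A).card = A.card.choose k := by
  unfold mu Pool.Agent.Helper594_MMS.neg
  rw [← Finset.card_powersetCard k A,
    ← Finset.card_filter_add_card_filter_not (s := A.powersetCard k)
      (fun B => 0 ≤ ∑ b ∈ B, b)]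
  congr 2
  apply Finset.filter_congr
  intro B _
  exact not_le.symm

theorem mu_le (k : ℕ) (A : Finset ℝ) (hk : 1 ≤ k)
    (hn : 4 * k ≤ A.card ∧ (k ≤ 4 ∨ k ∣ A.card ∨ 8 * k ^ 2 ≤ A.card)) (hs : ∑ y ∈ A, y = 0) :
    mu k A ≤ (A.card - 1).choose k := by
  have h1 := mu_add_neg k A
  have h2 : (A.card - 1).choose (k - 1) ≤ (Pool.Agent.Helper594_MMS.neg k A).card := by
    rcases hn with ⟨h4, h | h | h⟩
    · exact Pool.Agent.Helper594_MMS.strict_small k A.card hk h h4 A rfl hs.le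
    · exact Pool.Agent.Helper594_MMS.neg_ge A k hk (Or.inr ⟨h, h4⟩) hs
    · exact Pool.Agent.Helper594_MMS.neg_ge A k hk (Or.inl h) hs
  have hpos : 1 ≤ A.card := by omega
  obtain ⟨p, hp⟩ : ∃ p, A.card = p + 1 := ⟨A.card - 1, by omega⟩
  obtain ⟨j, rfl⟩ : ∃ j, k = j + 1 := ⟨k - 1, by omega⟩
  rw [hp] at h1 h2 ⊢
  have h3 : (p + 1).choose (j + 1) = p.choose j + p.choose (j + 1) := Nat.choose_succ_succ p j
  rw [h3] at h1
  simp only [Nat.add_sub_cancel] at h2 ⊢
  omega

/-- The set `{-(1 + ... + p)} ∪ {1, ..., p}`. -/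
theorem exists_example (n k : ℕ) (hn : 3 ≤ n) :
    ∃ A : Finset ℝ, A.card = n ∧ ∑ y ∈ A, y = 0 ∧ (n - 1).choose k ≤ mu k A := by
  classical
  obtain ⟨p, rfl⟩ : ∃ p, n = p + 1 := ⟨n - 1, by omega⟩
  let f : ℕ ↪ ℝ := ⟨fun i => (i : ℝ) + 1, by
    intro a b h
    have : (a : ℝ) + 1 = (b : ℝ) + 1 := h
    have h' : (a : ℝ) = b := by linarith
    exact_mod_cast h'⟩
  let P : Finset ℝ := (range p).map f
  have hPpos : ∀ y ∈ P, 0 < y := by
    intro y hy
    rw [Finset.mem_map] at hy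
    obtain ⟨i, _, rfl⟩ := hy
    show 0 < (i : ℝ) + 1
    positivity
  have hPsum : 0 ≤ ∑ y ∈ P, y := Finset.sum_nonneg (fun y hy => (hPpos y hy).le)
  have hx : (-∑ y ∈ P, y) ∉ P := by
    intro h
    have := hPpos _ h
    linarith
  refine ⟨insert (-∑ y ∈ P, y) P, ?_, ?_, ?_⟩
  · rw [Finset.card_insert_of_notMem hx, Finset.card_map, Finset.card_range]
  · rw [Finset.sum_insert hx]
    ring
  · have h1 : (p + 1 - 1).choose k = (P.powersetCard k).card := by
      rw [Finset.card_powersetCard, Finset.card_map, Finset.card_range]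
      simp
    rw [h1]
    unfold mu
    apply Finset.card_le_card
    intro B hB
    rw [Finset.mem_powersetCard] at hB
    rw [Finset.mem_filter, Finset.mem_powersetCard]
    refine ⟨⟨hB.1.trans (Finset.subset_insert _ _), hB.2⟩, ?_⟩
    exact Finset.sum_nonneg (fun y hy => (hPpos y (hB.1 hy)).le)

/-- **Main result.** Let `k ≥ 1` and `n ≥ 4k`, and suppose that `k ≤ 4`, or `k ∣ n`, or `n ≥ 8k²`.
Then the maximum of `mu k A` over all sets `A` of `n` distinct reals with sum `0` exists and equals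
`C(n-1, k)`. -/
theorem result (k n : ℕ) (hk : 1 ≤ k) (hn : 4 * k ≤ n) (h : k ≤ 4 ∨ k ∣ n ∨ 8 * k ^ 2 ≤ n) :
    IsGreatest {m : ℕ | ∃ A : Finset ℝ, A.card = n ∧ ∑ a ∈ A, a = 0 ∧ mu k A = m}
      ((n - 1).choose k) := by
  constructor
  · obtain ⟨A, hA1, hA2, hA3⟩ := exists_example n k (by omega)
    refine ⟨A, hA1, hA2, le_antisymm ?_ hA3⟩
    have := mu_le k A hk (by rw [hA1]; exact ⟨hn, h⟩) hA2
    rwa [hA1] at this
  · rintro m ⟨A, hA1, hA2, rfl⟩
    have := mu_le k A hk (by rw [hA1]; exact ⟨hn, h⟩) hA2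
    rwa [hA1] at this

end Pool.Agent.Results.MP_9999b5_co.StrictMMS
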